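import Mathlib
import Pool.Agent.Work.MP_b26df8_pr.Final

/-!
MP_b26df8_pr, Q1 (full answer, affirmative): the small-ball bound for the smallest singular value of a
random matrix with independent entries of bounded density, with an arbitrary deterministic shift.
-/

open MeasureTheory ProbabilityTheory Matrix
open scoped ENNReal NNReal

namespace Pool.Agent.Results.MP_b26df8_pr.FullAnswer

/-- The smallest singular value `s_min(B) = min {‖B x‖₂ : ‖x‖₂ = 1}` of a real `n × n` matrix `B`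
(Euclidean norms; for `n ≥ 1` the infimum is a minimum, see `isLeast_smin` below). -/
noncomputable def smin {n : ℕ} (B : Matrix (Fin n) (Fin n) ℝ) : ℝ :=
  sInf {r : ℝ | ∃ x : EuclideanSpace ℝ (Fin n), ‖x‖ = 1 ∧ ‖Matrix.toEuclideanLin B x‖ = r}

/-- The distribution `ν` on the real line is absolutely continuous and its density is bounded
(almost everywhere with respect to Lebesgue measure, as a density is only defined up to null sets). -/
def HasBoundedDensity (ν : Measure ℝ) : Prop :=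
  ν ≪ volume ∧ ∃ K : ℝ≥0, ∀ᵐ x ∂(volume : Measure ℝ), ν.rnDeriv volume x ≤ (K : ℝ≥0∞)

/-- For `n ≥ 1` the infimum in the definition of `smin` is attained. -/
theorem isLeast_smin {n : ℕ} (hn : 1 ≤ n) (B : Matrix (Fin n) (Fin n) ℝ) :
    IsLeast {r : ℝ | ∃ x : EuclideanSpace ℝ (Fin n), ‖x‖ = 1 ∧ ‖Matrix.toEuclideanLin B x‖ = r}
      (smin B) := by
  have hcomp : IsCompact (Metric.sphere (0 : EuclideanSpace ℝ (Fin n)) 1) := isCompact_sphere _ _
  have hne : (Metric.sphere (0 : EuclideanSpace ℝ (Fin n)) 1).Nonempty := by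
    have : Nonempty (Fin n) := ⟨⟨0, hn⟩⟩
    have : Nontrivial (EuclideanSpace ℝ (Fin n)) := inferInstance
    exact NormedSpace.sphere_nonempty.2 zero_le_one
  have hcont : ContinuousOn (fun x : EuclideanSpace ℝ (Fin n) => ‖Matrix.toEuclideanLin B x‖)
      (Metric.sphere 0 1) :=
    ((LinearMap.continuous_of_finiteDimensional (Matrix.toEuclideanLin B)).norm).continuousOn
  obtain ⟨x, hx, hmin⟩ := hcomp.exists_isMinOn hne hcont
  have hx1 : ‖x‖ = 1 := by simpa using hx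
  have hleast : IsLeast {r : ℝ | ∃ x : EuclideanSpace ℝ (Fin n), ‖x‖ = 1 ∧
      ‖Matrix.toEuclideanLin B x‖ = r} ‖Matrix.toEuclideanLin B x‖ := by
    refine ⟨⟨x, hx1, rfl⟩, ?_⟩
    rintro r ⟨y, hy, rfl⟩
    exact hmin (by simpa using hy)
  have h := hleast.csInf_eq
  rw [← h] at hleast
  exact hleast

/-- Euclidean norms in coordinates. -/
theorem norm_sq_toEuclideanLin {n : ℕ} (B : Matrix (Fin n) (Fin n) ℝ)
    (x : EuclideanSpace ℝ (Fin n)) :
    ‖Matrix.toEuclideanLin B x‖ ^ 2 = ∑ i, (B *ᵥ (fun j => x j)) i ^ 2 := by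
  rw [EuclideanSpace.norm_sq_eq]
  refine Finset.sum_congr rfl fun i _ => ?_
  rw [Real.norm_eq_abs, sq_abs]
  rfl

/-- **Answer to Q1 (yes).**  Let `μ` be the distribution of a real random variable `ξ` with mean `0`,
variance `1` and a bounded density.  There is a constant `C > 0`, depending only on `μ`, such that for
every `n ≥ 1`, every random `n × n` matrix `A` (on any probability space) whose entries are independent
and have the distribution `μ`, every deterministic `n × n` matrix `M` and every `t > 0`,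
`P(s_min(A + M) ≤ t n^(-1/2)) ≤ C t`. -/
theorem result :
    ∀ (μ : Measure ℝ) [IsProbabilityMeasure μ], HasBoundedDensity μ →
      ∫ x, x ∂μ = 0 → ∫ x, x ^ 2 ∂μ = 1 →
      ∃ C : ℝ, 0 < C ∧
        ∀ (n : ℕ), 1 ≤ n →
          ∀ (Ω : Type*) [MeasurableSpace Ω] (P : Measure Ω) [IsProbabilityMeasure P]
            (A : Ω → Matrix (Fin n) (Fin n) ℝ),
            iIndepFun (fun (p : Fin n × Fin n) (ω : Ω) => A ω p.1 p.2) P →
            (∀ i j : Fin n, HasLaw (fun ω => A ω i j) μ P) →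
            ∀ (M : Matrix (Fin n) (Fin n) ℝ) (t : ℝ), 0 < t →
              P {ω | smin (A ω + M) ≤ t * (n : ℝ) ^ (-(1 / 2) : ℝ)} ≤ ENNReal.ofReal (C * t) := by
  intro μ _ hd hmean hvar
  obtain ⟨hac, K, hK⟩ := hd
  have h2 : Integrable (fun x : ℝ => x ^ 2) μ := by
    by_contra h
    rw [integral_undef h] at hvar
    exact zero_ne_one hvar
  have hf : ∃ f : ℝ → ℝ≥0∞, Measurable f ∧ (∃ K : ℝ≥0, ∀ x, f x ≤ (K : ℝ≥0∞)) ∧
      μ = volume.withDensity f := by
    refine ⟨fun x => min (μ.rnDeriv volume x) (K : ℝ≥0∞),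
      (Measure.measurable_rnDeriv _ _).min measurable_const, ⟨K, fun x => min_le_right _ _⟩, ?_⟩
    have h1 : volume.withDensity (μ.rnDeriv volume) = μ := Measure.withDensity_rnDeriv_eq μ volume hac
    rw [← h1]
    refine withDensity_congr_ae ?_
    rw [h1]
    filter_upwards [hK] with x hx
    rw [min_eq_left hx]
  obtain ⟨C, hC, hmain⟩ := Pool.Agent.SMin.smin_bound μ hf h2 hmean hvar
  refine ⟨C, hC, ?_⟩
  intro n hn Ω _ P _ A hind hlaw M t ht
  have hn0 : (0 : ℝ) < n := by exact_mod_cast hn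
  -- the joint law of the entries
  have hae : ∀ p : Fin n × Fin n, AEMeasurable (fun ω => A ω p.1 p.2) P :=
    fun p => (hlaw p.1 p.2).aemeasurable
  have hmap : P.map (fun ω (p : Fin n × Fin n) => A ω p.1 p.2) =
      Measure.pi (fun _ : Fin n × Fin n => μ) := by
    have h := (iIndepFun_iff_map_fun_eq_pi_map hae).1 hind
    rw [h]
    congr 1
    funext p
    exact (hlaw p.1 p.2).map_eq
  have hX : AEMeasurable (fun ω (p : Fin n × Fin n) => A ω p.1 p.2) P := aemeasurable_pi_lambda _ hae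
  have hsub : {ω | smin (A ω + M) ≤ t * (n : ℝ) ^ (-(1 / 2) : ℝ)} ⊆
      (fun ω (p : Fin n × Fin n) => A ω p.1 p.2) ⁻¹'
        {a | ∃ x : Fin n → ℝ, ∑ i, x i ^ 2 = 1 ∧
          ∑ i, ((Matrix.of (fun i j => a (i, j)) + M) *ᵥ x) i ^ 2 ≤ t ^ 2 / (n : ℝ)} := by
    intro ω hω
    obtain ⟨⟨x, hx, hxe⟩, -⟩ := isLeast_smin hn (A ω + M)
    have hω' : smin (A ω + M) ≤ t * (n : ℝ) ^ (-(1 / 2) : ℝ) := hω
    refine ⟨fun i => x i, ?_, ?_⟩
    · have h1 : ‖x‖ ^ 2 = 1 := by rw [hx]; norm_num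
      rw [EuclideanSpace.norm_sq_eq] at h1
      rw [← h1]
      refine Finset.sum_congr rfl fun i _ => ?_
      rw [Real.norm_eq_abs, sq_abs]
    · have h1 : (Matrix.of (fun i j => A ω i j) + M) = A ω + M := rfl
      change ∑ i, ((Matrix.of (fun i j => A ω i j) + M) *ᵥ (fun i => x i)) i ^ 2 ≤ t ^ 2 / (n : ℝ)
      rw [h1, ← norm_sq_toEuclideanLin, hxe]
      have h0 : 0 ≤ smin (A ω + M) := by rw [← hxe]; exact norm_nonneg _
      have h3 : t ^ 2 / (n : ℝ) = (t * (n : ℝ) ^ (-(1 / 2) : ℝ)) ^ 2 := by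
        rw [mul_pow, ← Real.rpow_natCast ((n : ℝ) ^ (-(1 / 2) : ℝ)) 2, ← Real.rpow_mul hn0.le]
        norm_num
        rw [Real.rpow_neg_one]
        rfl
      rw [h3]
      gcongr
  calc P {ω | smin (A ω + M) ≤ t * (n : ℝ) ^ (-(1 / 2) : ℝ)}
      ≤ P ((fun ω (p : Fin n × Fin n) => A ω p.1 p.2) ⁻¹'
        {a | ∃ x : Fin n → ℝ, ∑ i, x i ^ 2 = 1 ∧
          ∑ i, ((Matrix.of (fun i j => a (i, j)) + M) *ᵥ x) i ^ 2 ≤ t ^ 2 / (n : ℝ)}) :=
        measure_mono hsub
    _ ≤ P.map (fun ω (p : Fin n × Fin n) => A ω p.1 p.2)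
        {a | ∃ x : Fin n → ℝ, ∑ i, x i ^ 2 = 1 ∧
          ∑ i, ((Matrix.of (fun i j => a (i, j)) + M) *ᵥ x) i ^ 2 ≤ t ^ 2 / (n : ℝ)} :=
        Measure.le_map_apply hX _
    _ ≤ ENNReal.ofReal (C * t) := by
        rw [hmap]
        exact hmain n M t ht

end Pool.Agent.Results.MP_b26df8_pr.FullAnswer
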